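import Pool.Agent.Helper74.RN.St

set_option autoImplicit false

namespace Pool.Agent.Helper40.RN

open Pool.Agent.Helper74 Pool.Agent.Helper74.RN

/-- Two places are connected. -/
def Sp {G : Type} (w : List (Option G)) (c c' : Cd) : Prop := stR w c = c' ∧ stL w c' = c

theorem re_le {G : Type} (w : List (Option G)) (t : ℕ) (ht : t ≤ w.length) :
    re (rp w t) = false := by
  rcases Nat.eq_zero_or_pos t with h | h
  · subst h
    simp [re, rp]
  · have h1 : t - 1 < w.length := by omega
    have h2 : w[t - 1]? = some w[t - 1] := List.getElem?_eq_getElem h1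
    simp [re, rp, h2]

theorem re_end {G : Type} (w : List (Option G)) : re (rp w (w.length + 1)) = true := by
  simp [re, rp]

theorem rp_pos {α : Type} (w : List α) (i : ℕ) (hi : 1 ≤ i) : (rp w i).1 = false := by
  have h : i ≠ 0 := by omega
  simp [rp, h]

theorem rp_zero {α : Type} (w : List α) : (rp w 0).1 = true := by
  simp [rp]

theorem mv0 (n p : ℕ) : mv n p 0 = p - 1 := by
  simp [mv]

theorem mv1 (n p : ℕ) : mv n p 1 = p := by
  simp [mv]

theorem mv2 (n p : ℕ) (h : p ≤ n) : mv n p 2 = p + 1 := by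
  have h0 : ¬ ((2 : Fin 3) = 0) := by decide
  have h1 : ¬ ((2 : Fin 3) = 1) := by decide
  simp only [mv, h0, h1, if_false]
  omega

theorem sp0 {G : Type} (w : List (Option G)) (p : Bool) (i t : ℕ) (hi : 1 ≤ i)
    (ht : t ≤ w.length) : Sp w (.k p 0, i, t) (.k p 0, i, t + 1) := by
  have h1 := rp_pos w i hi
  have h2 := re_le w t ht
  have h3 : (rp w (t + 1)).1 = false := rp_pos w (t + 1) (by omega)
  have h4 := mv2 w.length t ht
  constructor
  · simp [stR, nx, h1, h2, mv1, h4]
  · simp [stL, pv, h3, mv1, mv0]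

theorem sp1 {G : Type} (w : List (Option G)) (p : Bool) (i : ℕ) (hi : 1 ≤ i) :
    Sp w (.k p 0, i, w.length + 1) (.k p 1, i, w.length + 1) := by
  have h1 := rp_pos w i hi
  have h2 := re_end w
  constructor
  · simp [stR, nx, h1, h2, mv1]
  · simp [stL, pv, mv1]

theorem sp2 {G : Type} (w : List (Option G)) (p : Bool) (i : ℕ) :
    Sp w (.k p 1, i, w.length + 1) (.k p 2, i, w.length + 1) := by
  have h2 := re_end w
  constructor
  · simp [stR, nx, mv1]
  · simp [stL, pv, h2, mv1]

theorem sp3 {G : Type} (w : List (Option G)) (p : Bool) (i t : ℕ) (ht : t ≤ w.length) :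
    Sp w (.k p 2, i, t + 1) (.k p 2, i, t) := by
  have h2 := re_le w t ht
  have h3 : (rp w (t + 1)).1 = false := rp_pos w (t + 1) (by omega)
  have h4 := mv2 w.length t ht
  constructor
  · simp [stR, nx, h3, mv1, mv0]
  · simp [stL, pv, h2, mv1, h4]

theorem sp4 {G : Type} (w : List (Option G)) (p : Bool) (i : ℕ) (hi : 1 ≤ i) :
    Sp w (.k p 2, i, 0) (.k p 3, i, 0) := by
  have h1 := rp_pos w i hi
  have h2 := rp_zero w
  constructor
  · simp [stR, nx, h2, mv1]
  · simp [stL, pv, h1, mv1]

theorem chain_map {G : Type} (w : List (Option G)) (f : ℕ → Cd) (n : ℕ)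
    (h : ∀ t, t < n → Sp w (f t) (f (t + 1))) : Chn w ((List.range (n + 1)).map f) := by
  induction n with
  | zero => exact trivial
  | succ n ih =>
    have ih1 := ih (fun t ht => h t (by omega))
    rw [List.range_succ, List.map_append] at ih1
    rw [List.range_succ, List.range_succ, List.map_append, List.map_append, List.append_assoc]
    exact chn_append w _ (f n) [f (n + 1)] ih1 ⟨h n (by omega), trivial⟩

theorem hCHB : StCHB := by
  intro G w p i hi him
  obtain ⟨m, hm⟩ : ∃ m, m = w.length := ⟨_, rfl⟩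
  have hA : Chn w ((List.range (m + 1 + 1)).map (fun t => ((.k p 0, i, t) : Cd))) :=
    chain_map w _ (m + 1) (fun t ht => sp0 w p i t hi (by omega))
  have hB : Chn w ((List.range (m + 1 + 1)).map (fun t => ((.k p 2, i, m + 1 - t) : Cd))) := by
    refine chain_map w _ (m + 1) (fun t ht => ?_)
    have e1 : m + 1 - t = (m + 1 - (t + 1)) + 1 := by omega
    show Sp w (.k p 2, i, m + 1 - t) (.k p 2, i, m + 1 - (t + 1))
    rw [e1]
    exact sp3 w p i _ (by omega)
  have hC : Chn w ((List.range (m + 1 + 1)).map (fun t => ((.k p 2, i, m + 1 - t) : Cd)) ++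
      [(.k p 3, i, 0)]) := by
    rw [List.range_succ, List.map_append] at hB ⊢
    rw [List.append_assoc]
    refine chn_append w _ _ [(.k p 3, i, 0)] hB ⟨?_, trivial⟩
    have := sp4 w p i hi
    simpa [Sp] using this
  have hD : Chn w ((.k p 1, i, m + 1) ::
      ((List.range (m + 1 + 1)).map (fun t => ((.k p 2, i, m + 1 - t) : Cd)) ++
      [(.k p 3, i, 0)])) := by
    rw [List.range_succ_eq_map, List.map_cons, List.cons_append] at hC ⊢
    refine ⟨?_, hC⟩
    have := sp2 w p i
    rw [← hm] at this
    simpa [Sp] using this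
  rw [← hm]
  unfold cb
  rw [List.range_succ, List.map_append] at hA
  have e : (List.range (m + 2)).map (fun t => ((.k p 0, i, t) : Cd)) =
      (List.range (m + 1)).map (fun t => ((.k p 0, i, t) : Cd)) ++ [(.k p 0, i, m + 1)] := by
    rw [List.range_succ, List.map_append]
    rfl
  rw [e, List.append_assoc]
  refine chn_append w _ _ _ hA ⟨?_, hD⟩
  have := sp1 w p i hi
  rw [← hm] at this
  exact this

end Pool.Agent.Helper40.RN
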